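import Pool.Agent.W2helper74.SOS.Stm4
import Pool.Agent.W2helper4.SOS.J5
import Pool.Agent.W2helper19.SOS.J3
import Pool.Agent.W2helper12.SOS.J1

/-!
# MP_ce7760_an, S1FULL, piece P20 (helper95): generic tuples of linear forms
-/

set_option autoImplicit false

open MvPolynomial

namespace Pool.Agent.W2helper95.SOS

open Pool.Agent.W2helper74.SOS
open Pool.Agent.W2helper19.SOS (lfL lfL_apply lf_add lf_smul lf_zero lf_ne_zero lf_single res_lf
  emb_self emb_mul finrank_map_mulLeft finrank_ker_add rk_LF rank_emb mx_LF LF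
  coeff_mem_of_infinite)
open Pool.Agent.W2helper4.SOS (crv crv_eval map_C_eval evD rk_smul_ge)

/-! ### The spaces `F_w` -/

/-- `F_w = {g : lf w * g ∈ V}` -/
noncomputable def FF {n : ℕ} (V : Submodule ℂ (Pol n)) (w : Fin n → ℂ) : Submodule ℂ (Pol n) :=
  V.comap (LinearMap.mulLeft ℂ (lf w))

lemma mem_FF {n : ℕ} {V : Submodule ℂ (Pol n)} {w : Fin n → ℂ} {g : Pol n} :
    g ∈ FF V w ↔ lf w * g ∈ V := Iff.rfl

lemma map_FF_le {n : ℕ} (V : Submodule ℂ (Pol n)) (w : Fin n → ℂ) :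
    (FF V w).map (LinearMap.mulLeft ℂ (lf w)) ≤ V := Submodule.map_comap_le _ _

lemma mulLeft_inj {n : ℕ} {w : Fin n → ℂ} (hw : w ≠ 0) :
    Function.Injective (LinearMap.mulLeft ℂ (lf w)) :=
  fun _ _ h => mul_left_cancel₀ (lf_ne_zero hw) h

lemma FF_finite {n : ℕ} (V : Submodule ℂ (Pol n)) (hV : Module.Finite ℂ V) {w : Fin n → ℂ}
    (hw : w ≠ 0) : Module.Finite ℂ (FF V w) := by
  have := hV
  have h1 : Module.Finite ℂ ((FF V w).map (LinearMap.mulLeft ℂ (lf w))) :=
    Submodule.finiteDimensional_of_le (map_FF_le V w)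
  exact Module.Finite.equiv (Submodule.equivMapOfInjective _ (mulLeft_inj hw) (FF V w)).symm

lemma finrank_FF_le {n j : ℕ} (V : Submodule ℂ (Pol n)) (hV : Module.Finite ℂ V) {w : Fin n → ℂ}
    (hw : w ≠ 0) (T : Matrix (Fin n) (Fin j) ℂ) (h : Matrix.vecMul w T = 0) :
    Module.finrank ℂ (FF V w) + rk V T ≤ Module.finrank ℂ V := by
  have := hV
  have h1 := finrank_ker_add V T
  have h2 : (FF V w).map (LinearMap.mulLeft ℂ (lf w)) ≤
      V ⊓ LinearMap.ker (res T).toLinearMap := by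
    rintro _ ⟨g, hg, rfl⟩
    refine Submodule.mem_inf.2 ⟨hg, LinearMap.mem_ker.2 ?_⟩
    rw [LinearMap.mulLeft_apply, AlgHom.toLinearMap_apply, map_mul, res_lf, h, lf_zero, zero_mul]
  have h3 := Submodule.finrank_mono h2
  rw [finrank_map_mulLeft _ (lf_ne_zero hw)] at h3
  omega

/-! ### Sets that are generic on lines -/

/-- a set that contains almost all points of every line through one of its points -/
def Ln {X : Type*} [AddCommGroup X] [Module ℂ X] (C : Set X) : Prop :=
  ∀ w ∈ C, ∀ w', {t : ℂ | w + t • (w' - w) ∉ C}.Finite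

section ln
variable {X : Type*} [AddCommGroup X] [Module ℂ X]

lemma ln_inter {C₁ C₂ : Set X} (h₁ : Ln C₁) (h₂ : Ln C₂) (n₁ : C₁.Nonempty) (n₂ : C₂.Nonempty) :
    Ln (C₁ ∩ C₂) ∧ (C₁ ∩ C₂).Nonempty := by
  constructor
  · intro w hw w'
    refine ((h₁ w hw.1 w').union (h₂ w hw.2 w')).subset ?_
    intro t ht
    by_contra hcon
    rw [Set.mem_union, not_or] at hcon
    exact ht ⟨not_not.1 hcon.1, not_not.1 hcon.2⟩
  · obtain ⟨w₁, hw₁⟩ := n₁
    obtain ⟨w₂, hw₂⟩ := n₂
    have ha := h₁ w₁ hw₁ w₂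
    have hb := (h₂ w₂ hw₂ w₁).preimage (f := fun t : ℂ => 1 - t)
      (fun a _ b _ h => sub_right_injective h)
    obtain ⟨t, ht⟩ := (ha.union hb).exists_notMem
    rw [Set.mem_union, not_or] at ht
    refine ⟨w₁ + t • (w₂ - w₁), not_not.1 ht.1, ?_⟩
    have h3 := not_not.1 ht.2
    have e : w₁ + t • (w₂ - w₁) = w₂ + (1 - t) • (w₁ - w₂) := by
      rw [sub_smul, one_smul, smul_sub, smul_sub]
      abel
    rw [e]
    exact h3

lemma ln_univ : Ln (Set.univ : Set X) := by
  intro w _ w'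
  have : {t : ℂ | w + t • (w' - w) ∉ (Set.univ : Set X)} = ∅ := by
    ext t
    simp
  rw [this]
  exact Set.finite_empty

lemma ln_iInter {κ : Type*} [DecidableEq κ] (s : Finset κ) (C : κ → Set X)
    (h : ∀ i ∈ s, Ln (C i) ∧ (C i).Nonempty) :
    Ln {w | ∀ i ∈ s, w ∈ C i} ∧ {w | ∀ i ∈ s, w ∈ C i}.Nonempty := by
  induction s using Finset.induction_on with
  | empty =>
    have : {w : X | ∀ i ∈ (∅ : Finset κ), w ∈ C i} = Set.univ := by
      ext w
      simp
    rw [this]
    exact ⟨ln_univ, Set.univ_nonempty⟩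
  | insert a s ha ih =>
    have h1 := ih fun i hi => h i (Finset.mem_insert_of_mem hi)
    have h2 := h a (Finset.mem_insert_self _ _)
    have : {w : X | ∀ i ∈ insert a s, w ∈ C i} = C a ∩ {w | ∀ i ∈ s, w ∈ C i} := by
      ext w
      simp
    rw [this]
    exact ln_inter h2.1 h1.1 h2.2 h1.2

end ln

/-! ### Generic matrices -/

theorem evA {n k : ℕ} (S R : Matrix (Fin n) (Fin n) ℂ) (E : Matrix (Fin n) (Fin k) ℂ) (τ : ℂ) :
    ((crv S R).adjugate * E.map Polynomial.C).map (Polynomial.eval τ) =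
      (S + τ • (R - S)).adjugate * E := by
  have h : ((crv S R).adjugate * E.map Polynomial.C).map (Polynomial.evalRingHom τ) =
      ((crv S R).adjugate).map (Polynomial.evalRingHom τ) *
        (E.map Polynomial.C).map (Polynomial.evalRingHom τ) := Matrix.map_mul
  have h1 : (crv S R).adjugate.map (Polynomial.evalRingHom τ) = (S + τ • (R - S)).adjugate := by
    rw [← crv_eval S R τ, ← RingHom.map_adjugate]
    rfl
  have h2 := map_C_eval E τ
  rw [h1] at h
  exact h.trans (by rw [show (E.map (Polynomial.C : ℂ → Polynomial ℂ)).map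
    (Polynomial.evalRingHom τ) = E from h2])

/-- the generic matrices -/
def GG {n : ℕ} (V E : Submodule ℂ (Pol n)) : Set (Matrix (Fin n) (Fin n) ℂ) :=
  {S | S.det ≠ 0 ∧ mx V (n - 3) ≤ rk V (S.adjugate * emb (n - 3) n) ∧
    mx V (n - 2) ≤ rk V (S.adjugate * emb (n - 2) n) ∧
    mx V (n - 1) ≤ rk V (S.adjugate * emb (n - 1) n) ∧
    mx E (n - 2) ≤ rk E (S.adjugate * emb (n - 2) n)}

lemma ln_rk (hB2 : B2) {n k : ℕ} (V : Submodule ℂ (Pol n)) (hV : Module.Finite ℂ V)
    (S S' : Matrix (Fin n) (Fin n) ℂ) (E : Matrix (Fin n) (Fin k) ℂ) :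
    {t : ℂ | ¬ rk V (S.adjugate * E) ≤ rk V ((S + t • (S' - S)).adjugate * E)}.Finite := by
  have h := hB2 n k V hV ((crv S S').adjugate * E.map Polynomial.C) 0
  refine h.subset ?_
  intro t ht
  show rk V _ < rk V _
  rw [evA, evA, zero_smul, add_zero]
  exact not_le.1 ht

lemma ln_GG (hB2 : B2) {n : ℕ} (V E : Submodule ℂ (Pol n)) (hV : Module.Finite ℂ V)
    (hE : Module.Finite ℂ E) : Ln (GG V E) := by
  rintro S ⟨h0, h1, h2, h3, h4⟩ S'
  have hd : {t : ℂ | (S + t • (S' - S)).det = 0}.Finite := by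
    have hp : (crv S S').det ≠ 0 := by
      intro h
      apply h0
      have := evD S S' 0
      rw [h, zero_smul, add_zero] at this
      rw [← this]
      simp
    refine (Polynomial.finite_setOfPred_isRoot hp).subset ?_
    intro t ht
    show Polynomial.eval t _ = 0
    rw [evD]
    exact ht
  refine ((((hd.union (ln_rk hB2 V hV S S' (emb (n - 3) n))).union
    (ln_rk hB2 V hV S S' (emb (n - 2) n))).union (ln_rk hB2 V hV S S' (emb (n - 1) n))).union
    (ln_rk hB2 E hE S S' (emb (n - 2) n))).subset ?_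
  intro t ht
  by_contra hcon
  simp only [Set.mem_union, Set.mem_ofPred_eq, not_or, not_not] at hcon
  obtain ⟨⟨⟨⟨c0, c1⟩, c2⟩, c3⟩, c4⟩ := hcon
  exact ht ⟨c0, h1.trans c1, h2.trans c2, h3.trans c3, h4.trans c4⟩

lemma GG_nonempty (hB1 : B1) (hB3 : B3) {n : ℕ} (hn : 6 ≤ n) (V E : Submodule ℂ (Pol n))
    (hV : Module.Finite ℂ V) (hE : Module.Finite ℂ E) : (GG V E).Nonempty := by
  obtain ⟨T, hT⟩ := hB3 n n 5 ![V, V, V, E, LF n] ![n - 3, n - 2, n - 1, n - 2, n]
    (by
      intro i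
      fin_cases i
      · exact hV
      · exact hV
      · exact hV
      · exact hE
      · exact (inferInstance : Module.Finite ℂ (LF n)))
    (by
      intro i
      fin_cases i
      · exact Nat.sub_le n 3
      · exact Nat.sub_le n 2
      · exact Nat.sub_le n 1
      · exact Nat.sub_le n 2
      · exact le_refl n)
  have t0 : rk V (T * emb (n - 3) n) = mx V (n - 3) := hT 0
  have t1 : rk V (T * emb (n - 2) n) = mx V (n - 2) := hT 1
  have t2 : rk V (T * emb (n - 1) n) = mx V (n - 1) := hT 2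
  have t3 : rk E (T * emb (n - 2) n) = mx E (n - 2) := hT 3
  have t4 : rk (LF n) (T * emb n n) = mx (LF n) n := hT 4
  rw [emb_self, Matrix.mul_one, rk_LF, mx_LF hB1 le_rfl] at t4
  have hdet : T.det ≠ 0 := by
    have h1 : IsUnit T := by
      rw [← Matrix.linearIndependent_rows_iff_isUnit,
        linearIndependent_iff_card_eq_finrank_span, Fintype.card_fin]
      rw [Matrix.rank_eq_finrank_span_row] at t4
      exact t4.symm
    exact ((Matrix.isUnit_iff_isUnit_det T).1 h1).ne_zero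
  refine ⟨T.adjugate, ?_, ?_⟩
  · rw [Matrix.det_adjugate]
    exact pow_ne_zero _ hdet
  · have hadj : T.adjugate.adjugate = (T.det ^ (n - 2)) • T := by
      rw [Matrix.adjugate_adjugate _ (by rw [Fintype.card_fin]; omega), Fintype.card_fin]
    have key : ∀ (U : Submodule ℂ (Pol n)), Module.Finite ℂ U → ∀ {k : ℕ}
        (F : Matrix (Fin n) (Fin k) ℂ), rk U (T * F) ≤ rk U (T.adjugate.adjugate * F) := by
      intro U hU k F
      rw [hadj, Matrix.smul_mul]
      exact rk_smul_ge U hU (T * F) _ (pow_ne_zero _ hdet)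
    exact ⟨t0.symm.le.trans (key V hV _), t1.symm.le.trans (key V hV _),
      t2.symm.le.trans (key V hV _), t3.symm.le.trans (key E hE _)⟩

/-! ### The matrices of the pairs -/

/-- the matrix with the last two rows replaced by `w`, `w'` -/
def SM {n : ℕ} (R : Matrix (Fin n) (Fin n) ℂ) (w w' : Fin n → ℂ) : Matrix (Fin n) (Fin n) ℂ :=
  fun a => if (a : ℕ) = n - 2 then w else if (a : ℕ) = n - 1 then w' else R a

lemma SM_line {n : ℕ} (R : Matrix (Fin n) (Fin n) ℂ) (w w' u u' : Fin n → ℂ) (t : ℂ) :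
    SM R (w + t • (u - w)) (w' + t • (u' - w')) =
      SM R w w' + t • (SM R u u' - SM R w w') := by
  ext a b
  unfold SM
  simp only [Matrix.add_apply, Matrix.smul_apply, Matrix.sub_apply]
  split_ifs
  · simp
  · simp
  · simp

section pair
variable {n : ℕ} {V E : Submodule ℂ (Pol n)} {S : Matrix (Fin n) (Fin n) ℂ}

lemma row_zero (j : ℕ) (a : Fin n) (ha : j ≤ (a : ℕ)) :
    Matrix.vecMul (S a) (S.adjugate * emb j n) = 0 := by
  have h1 : Matrix.vecMul (S a) (S.adjugate * emb j n) = (S * (S.adjugate * emb j n)) a := rfl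
  rw [h1, ← Matrix.mul_assoc, Matrix.mul_adjugate, Matrix.smul_mul, Matrix.one_mul]
  ext b
  have := b.2
  simp only [Matrix.smul_apply, emb, Pi.zero_apply]
  rw [if_neg (by omega), smul_zero]

lemma rows_indep (hS : S.det ≠ 0) {a b : Fin n} (hab : a ≠ b) :
    LinearIndependent ℂ ![S a, S b] := by
  have h1 : LinearIndependent ℂ S.row :=
    Matrix.linearIndependent_rows_iff_isUnit.2 ((Matrix.isUnit_iff_isUnit_det S).2
      (isUnit_iff_ne_zero.2 hS))
  have h2 := h1.comp ![a, b] (by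
    intro i k hik
    fin_cases i <;> fin_cases k <;> simp_all)
  convert h2 using 1
  ext i k
  fin_cases i <;> rfl

lemma pair_two (hV : Module.Finite ℂ V) (hn : 6 ≤ n) (hB1 : B1)
    (hk : mx V (n - 1) + 2 = mx V n) (hS : S ∈ GG V E) :
    Module.finrank ℂ (FF V (S ⟨n - 1, by omega⟩)) ≤ 2 := by
  have h1 := (rows_indep hS.1 (a := ⟨n - 2, by omega⟩) (b := ⟨n - 1, by omega⟩) (by
    intro h
    have := congrArg Fin.val h
    simp at this
    omega)).ne_zero 1
  have h2 := finrank_FF_le V hV (w := S ⟨n - 1, by omega⟩) h1 (S.adjugate * emb (n - 1) n)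
    (row_zero (n - 1) _ le_rfl)
  have h3 := (hB1 n V hV).2.2.2.1
  have h4 := hS.2.2.2.1
  omega

lemma pair_meet (h : LemX) {d : Alg n} (hn : 6 ≤ n) (hB1 : B1)
    (k1 : mx d.V (n - 1) + 2 = mx d.V n) (k2 : mx d.V (n - 2) + 3 = mx d.V (n - 1))
    (k3 : mx d.V (n - 3) + 4 = mx d.V (n - 2)) (h5 : 5 ≤ mx d.E (n - 2))
    (hS : S ∈ GG d.V d.E) :
    ∃ c : Pol n, c ≠ 0 ∧ c ∈ FF d.V (S ⟨n - 2, by omega⟩) ∧ c ∈ FF d.V (S ⟨n - 1, by omega⟩) := by
  have hV := d.finV
  obtain ⟨s0, s1, s2, s3, s4⟩ := hS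
  have hli := rows_indep s0 (a := ⟨n - 2, by omega⟩) (b := ⟨n - 1, by omega⟩) (by
    intro h
    have := congrArg Fin.val h
    simp at this
    omega)
  have hb := hB1 n d.V hV
  refine h n d hn k1 k2 k3 (S.adjugate * emb (n - 2) n) _ _ hli ?_
    (row_zero (n - 2) _ le_rfl) (row_zero (n - 2) _ (by
      show n - 2 ≤ n - 1
      omega)) ?_ ?_ (h5.trans s4)
  · rw [Matrix.rank_mul_eq_right_of_isUnit_det, rank_emb (by omega)]
    rw [Matrix.det_adjugate]
    exact isUnit_iff_ne_zero.2 (pow_ne_zero _ s0)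
  · exact le_antisymm (hb.2.1 _ _) s2
  · rw [Matrix.mul_assoc, emb_mul (by omega)]
    exact le_antisymm (hb.2.1 _ _) s1

end pair

/-! ### Linear algebra -/

section la
variable {M : Type*} [AddCommGroup M] [Module ℂ M]

/-- two independent vectors span a space of dimension at most two -/
lemma le_of_two {F Q : Submodule ℂ M} (hF : Module.Finite ℂ F) (h2 : Module.finrank ℂ F ≤ 2)
    {x y : M} (hx : x ∈ F) (hy : y ∈ F) (hli : LinearIndependent ℂ ![x, y]) (hxQ : x ∈ Q)
    (hyQ : y ∈ Q) : F ≤ Q := by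
  have h1 : Submodule.span ℂ (Set.range ![x, y]) ≤ F := by
    rw [Submodule.span_le]
    rintro _ ⟨i, rfl⟩
    fin_cases i
    · exact hx
    · exact hy
  have h3 : Module.finrank ℂ (Submodule.span ℂ (Set.range ![x, y])) = 2 := by
    rw [finrank_span_eq_card hli, Fintype.card_fin]
  have h4 : Submodule.span ℂ (Set.range ![x, y]) = F :=
    Submodule.eq_of_le_of_finrank_le h1 (by omega)
  rw [← h4, Submodule.span_le]
  rintro _ ⟨i, rfl⟩
  fin_cases i
  · exact hxQ
  · exact hyQ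

/-- dependent vectors -/
lemma dep {x y : M} (hy : y ≠ 0) (h : ¬ LinearIndependent ℂ ![x, y]) :
    ∃ a : ℂ, x = a • y := by
  by_contra hcon
  push Not at hcon
  apply h
  rw [LinearIndependent.pair_iff]
  intro s t hst
  have hs : s = 0 := by
    by_contra hs
    apply hcon (-(s⁻¹ * t))
    have h1 : s • x = -(t • y) := eq_neg_of_add_eq_zero_left hst
    calc x = s⁻¹ • (s • x) := by rw [smul_smul, inv_mul_cancel₀ hs, one_smul]
      _ = -(s⁻¹ * t) • y := by rw [h1, smul_neg, smul_smul, neg_smul]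
  refine ⟨hs, ?_⟩
  rw [hs, zero_smul, zero_add] at hst
  exact (smul_eq_zero.1 hst).resolve_right hy

/-- the case without a common vector -/
lemma chow {F₀ F₁ F₂ F₃ : Submodule ℂ M} (f2 : Module.Finite ℂ F₂) (f3 : Module.Finite ℂ F₃)
    (d2 : Module.finrank ℂ F₂ ≤ 2) (d3 : Module.finrank ℂ F₃ ≤ 2)
    (h02 : F₀ ⊓ F₂ ≠ ⊥) (h12 : F₁ ⊓ F₂ ≠ ⊥)
    (h03 : F₀ ⊓ F₃ ≠ ⊥) (h13 : F₁ ⊓ F₃ ≠ ⊥) (h23 : F₂ ⊓ F₃ ≠ ⊥)
    (h : F₀ ⊓ F₁ ⊓ F₂ = ⊥) : F₃ ≤ F₀ ⊔ F₁ := by
  have ex : ∀ {A B : Submodule ℂ M}, A ⊓ B ≠ ⊥ → ∃ x, x ∈ A ∧ x ∈ B ∧ x ≠ 0 := by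
    intro A B hAB
    obtain ⟨x, hx, hx0⟩ := (Submodule.ne_bot_iff _).1 hAB
    exact ⟨x, (Submodule.mem_inf.1 hx).1, (Submodule.mem_inf.1 hx).2, hx0⟩
  have bot : ∀ x, x ∈ F₀ → x ∈ F₁ → x ∈ F₂ → x = 0 := by
    intro x a b c
    have : x ∈ F₀ ⊓ F₁ ⊓ F₂ := ⟨⟨a, b⟩, c⟩
    rw [h] at this
    exact (Submodule.mem_bot ℂ).1 this
  have mul : ∀ {A : Submodule ℂ M} {x y : M} {a : ℂ}, x ≠ 0 → x = a • y → x ∈ A → y ∈ A := by
    intro A x y a hx hxy hA
    have ha : a ≠ 0 := by
      rintro rfl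
      rw [zero_smul] at hxy
      exact hx hxy
    have : y = a⁻¹ • x := by rw [hxy, smul_smul, inv_mul_cancel₀ ha, one_smul]
    rw [this]
    exact A.smul_mem _ hA
  have hF2 : F₂ ≤ F₀ ⊔ F₁ := by
    obtain ⟨x, x0, x2, hx⟩ := ex h02
    obtain ⟨y, y1, y2, hy⟩ := ex h12
    refine le_of_two f2 d2 x2 y2 ?_ (Submodule.mem_sup_left x0) (Submodule.mem_sup_right y1)
    by_contra hli
    obtain ⟨a, ha⟩ := dep hy hli
    exact hy (bot y (mul hx ha x0) y1 y2)
  obtain ⟨x, x0, x3, hx⟩ := ex h03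
  obtain ⟨y, y1, y3, hy⟩ := ex h13
  obtain ⟨z, z2, z3, hz⟩ := ex h23
  by_cases h1 : LinearIndependent ℂ ![x, y]
  · exact le_of_two f3 d3 x3 y3 h1 (Submodule.mem_sup_left x0) (Submodule.mem_sup_right y1)
  by_cases h2 : LinearIndependent ℂ ![x, z]
  · exact le_of_two f3 d3 x3 z3 h2 (Submodule.mem_sup_left x0) (hF2 z2)
  exfalso
  obtain ⟨a, ha⟩ := dep hy h1
  obtain ⟨b, hb⟩ := dep hz h2
  have hy0 : y ∈ F₀ := mul hx ha x0
  have hz0 : z ∈ F₀ := mul hx hb x0
  have hb0 : b ≠ 0 := by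
    rintro rfl
    rw [zero_smul] at hb
    exact hx hb
  have hz1 : z ∈ F₁ := by
    have hx1 : x ∈ F₁ := by
      rw [ha]
      exact F₁.smul_mem _ y1
    exact mul hx hb hx1
  exact hz (bot z hz0 hz1 z2)

end la

/-! ### The theorem -/

/-- **(P20)** -/
theorem fw_of (h : LemX) (hB1 : B1) (hB2 : B2) (hB3 : B3) : Fw := by
  classical
  intro n d hn k1 k2 k3 h5 hcom
  have hV := d.finV
  have hE := d.finE
  obtain ⟨R, hR⟩ := GG_nonempty hB1 hB3 hn d.V d.E hV hE
  -- the generic tuples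
  let K : Finset (Fin 4 × Fin 4) := Finset.univ.filter fun p => p.1 ≠ p.2
  let C : Fin 4 × Fin 4 → Set (Fin 4 → Fin n → ℂ) := fun p =>
    {w | SM R (w p.1) (w p.2) ∈ GG d.V d.E}
  have hC : ∀ p ∈ K, Ln (C p) ∧ (C p).Nonempty := by
    intro p hp
    have hne : p.1 ≠ p.2 := (Finset.mem_filter.1 hp).2
    constructor
    · intro w hw w'
      have h1 := ln_GG hB2 d.V d.E hV hE _ hw (SM R (w' p.1) (w' p.2))
      refine h1.subset ?_
      intro t ht hcon
      apply ht
      show SM R ((w + t • (w' - w)) p.1) ((w + t • (w' - w)) p.2) ∈ GG d.V d.E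
      have h2 : ∀ i, (w + t • (w' - w)) i = w i + t • (w' i - w i) := fun i => rfl
      rw [h2, h2, SM_line]
      exact hcon
    · refine ⟨fun i => if i = p.1 then R ⟨n - 2, by omega⟩ else R ⟨n - 1, by omega⟩, ?_⟩
      show SM R _ _ ∈ GG d.V d.E
      have : SM R (if p.1 = p.1 then R ⟨n - 2, by omega⟩ else R ⟨n - 1, by omega⟩)
          (if p.2 = p.1 then R ⟨n - 2, by omega⟩ else R ⟨n - 1, by omega⟩) = R := by
        rw [if_pos rfl, if_neg (Ne.symm hne)]
        ext a b
        unfold SM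
        split_ifs with h1 h2
        · have e : a = ⟨n - 2, by omega⟩ := Fin.ext h1
          rw [e]
        · have e : a = ⟨n - 1, by omega⟩ := Fin.ext h2
          rw [e]
        · rfl
      rw [this]
      exact hR
  obtain ⟨hLn, w, hw⟩ := ln_iInter K C hC
  set CC : Set (Fin 4 → Fin n → ℂ) := {w | ∀ i ∈ K, w ∈ C i} with hCC
  -- the properties of the tuples
  have hrow2 : ∀ a b : Fin n → ℂ, SM R a b ⟨n - 2, by omega⟩ = a := by
    intro a b
    unfold SM
    rw [if_pos rfl]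
  have hrow1 : ∀ a b : Fin n → ℂ, SM R a b ⟨n - 1, by omega⟩ = b := by
    intro a b
    unfold SM
    rw [if_neg (by
      show ¬ n - 1 = n - 2
      omega), if_pos rfl]
  have hmemK : ∀ i l : Fin 4, i ≠ l → (i, l) ∈ K := fun i l hil =>
    Finset.mem_filter.2 ⟨Finset.mem_univ _, hil⟩
  have hne0 : ∀ v ∈ CC, ∀ l : Fin 4, v l ≠ 0 := by
    intro v hv l
    obtain ⟨i, hi⟩ : ∃ i : Fin 4, i ≠ l := exists_ne l
    have h1 := hv (i, l) (hmemK i l hi)
    have h2 := (rows_indep h1.1 (a := ⟨n - 2, by omega⟩) (b := ⟨n - 1, by omega⟩) (by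
      intro h
      have := congrArg Fin.val h
      simp at this
      omega)).ne_zero 1
    rw [show (![SM R (v i) (v l) ⟨n - 2, by omega⟩, SM R (v i) (v l) ⟨n - 1, by omega⟩] :
      Fin 2 → Fin n → ℂ) 1 = SM R (v i) (v l) ⟨n - 1, by omega⟩ from rfl, hrow1] at h2
    exact h2
  have hfin : ∀ v ∈ CC, ∀ l : Fin 4, Module.Finite ℂ (FF d.V (v l)) :=
    fun v hv l => FF_finite d.V hV (hne0 v hv l)
  have htwo : ∀ v ∈ CC, ∀ l : Fin 4, Module.finrank ℂ (FF d.V (v l)) ≤ 2 := by
    intro v hv l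
    obtain ⟨i, hi⟩ : ∃ i : Fin 4, i ≠ l := exists_ne l
    have h1 := pair_two hV hn hB1 k1 (hv (i, l) (hmemK i l hi))
    rwa [hrow1] at h1
  have hmeet : ∀ v ∈ CC, ∀ i l : Fin 4, i ≠ l → FF d.V (v i) ⊓ FF d.V (v l) ≠ ⊥ := by
    intro v hv i l hil
    obtain ⟨c, hc, c1, c2⟩ := pair_meet h hn hB1 k1 k2 k3 h5 (hv (i, l) (hmemK i l hil))
    rw [hrow2] at c1
    rw [hrow1] at c2
    exact (Submodule.ne_bot_iff _).2 ⟨c, ⟨c1, c2⟩, hc⟩
  -- change of one vector
  have hupd : ∀ v ∈ CC, ∀ (k : Fin 4) (u : Fin n → ℂ),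
      {t : ℂ | Function.update v k (v k + t • (u - v k)) ∉ CC}.Finite := by
    intro v hv k u
    refine (hLn v hv (Function.update v k u)).subset ?_
    intro t ht hcon
    apply ht
    have e : Function.update v k (v k + t • (u - v k)) =
        v + t • (Function.update v k u - v) := by
      ext i a
      by_cases hi : i = k
      · subst hi
        simp
      · simp [Function.update_of_ne hi]
    rw [e]
    exact hcon
  -- a common vector is impossible
  have hno : ∀ v ∈ CC, ∀ (k : Fin 4) (c : Pol n), c ≠ 0 →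
      ¬ ∀ u : Fin n → ℂ, Function.update v k u ∈ CC → c ∈ FF d.V u := by
    intro v hv k c hc hall
    apply hc
    apply hcom
    have h1 : ∀ u : Fin n → ℂ, lf u * c ∈ d.V := by
      intro u
      have hinf : {t : ℂ | ∑ i ∈ Finset.range (1 + 1),
          t ^ i • (if i = 0 then lf (v k) * c else lf (u - v k) * c) ∈ d.V}.Infinite := by
        have h2 := (hupd v hv k u).infinite_compl
        refine h2.mono ?_
        intro t ht
        have h3 := hall _ (not_not.1 ht)
        rw [mem_FF, lf_add, lf_smul, add_mul, smul_mul_assoc] at h3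
        show _ ∈ d.V
        rw [Finset.sum_range_succ, Finset.sum_range_one]
        simpa using h3
      have h4 := coeff_mem_of_infinite d.V 1 _ hinf
      have h5 := h4 0 (by omega)
      have h6 := h4 1 le_rfl
      simp only [if_true, one_ne_zero, if_false] at h5 h6
      have h7 := d.V.add_mem h5 h6
      rwa [← add_mul, ← lf_add, add_sub_cancel] at h7
    intro k
    rw [← lf_single]
    exact h1 _
  by_cases hA : ∃ v ∈ CC, FF d.V (v 0) ⊓ FF d.V (v 1) ⊓ FF d.V (v 2) = ⊥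
  · obtain ⟨v, hv, hv0⟩ := hA
    set Q := FF d.V (v 0) ⊔ FF d.V (v 1) with hQ
    have f0 := hfin v hv 0
    have f1 := hfin v hv 1
    have hQ3 : Module.finrank ℂ Q ≤ 3 := by
      have h1 := Submodule.finrank_sup_add_finrank_inf_eq (FF d.V (v 0)) (FF d.V (v 1))
      rw [← hQ] at h1
      have h2 := htwo v hv 0
      have h3 := htwo v hv 1
      have h4 : 1 ≤ Module.finrank ℂ ↥(FF d.V (v 0) ⊓ FF d.V (v 1)) := by
        have h5 := hmeet v hv 0 1 (by decide)
        have : Nontrivial ↥(FF d.V (v 0) ⊓ FF d.V (v 1)) := Submodule.nontrivial_iff_ne_bot.2 h5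
        have : Module.Finite ℂ ↥(FF d.V (v 0) ⊓ FF d.V (v 1)) :=
          Submodule.finiteDimensional_inf_left _ _
        exact Module.finrank_pos
      omega
    have hall : ∀ u : Fin n → ℂ, Function.update v 3 u ∈ CC → FF d.V u ≤ Q := by
      intro u hu
      have e0 : Function.update v 3 u 0 = v 0 := Function.update_of_ne (by decide) _ _
      have e1 : Function.update v 3 u 1 = v 1 := Function.update_of_ne (by decide) _ _
      have e2 : Function.update v 3 u 2 = v 2 := Function.update_of_ne (by decide) _ _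
      have e3 : Function.update v 3 u 3 = u := Function.update_self _ _ _
      have g2 := hfin _ hu 2
      have g3 := hfin _ hu 3
      have d2 := htwo _ hu 2
      have d3 := htwo _ hu 3
      have m02 := hmeet _ hu 0 2 (by decide)
      have m12 := hmeet _ hu 1 2 (by decide)
      have m03 := hmeet _ hu 0 3 (by decide)
      have m13 := hmeet _ hu 1 3 (by decide)
      have m23 := hmeet _ hu 2 3 (by decide)
      rw [e0, e2] at m02
      rw [e1, e2] at m12
      rw [e0, e3] at m03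
      rw [e1, e3] at m13
      rw [e2, e3] at m23
      rw [e2] at g2 d2
      rw [e3] at g3 d3
      exact chow g2 g3 d2 d3 m02 m12 m03 m13 m23 hv0
    have hEQ : d.E ≤ Q := by
      rw [← d.spanE, Submodule.span_le]
      rintro _ ⟨u, rfl⟩
      obtain ⟨D, c, hcd, hc⟩ := d.hom (u - v 3) (v 3)
      have hinf : {t : ℂ | ∑ i ∈ Finset.range (D + 1), t ^ i • c i ∈ Q}.Infinite := by
        refine ((hupd v hv 3 u).infinite_compl).mono ?_
        intro t ht
        have h3 := hall _ (not_not.1 ht)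
        show _ ∈ Q
        rw [← hc t]
        apply h3
        rw [mem_FF, add_comm (t • (u - v 3)) (v 3), ← d.spanV]
        exact Submodule.subset_span ⟨_, rfl⟩
      have h4 := coeff_mem_of_infinite Q D c hinf
      have h5 := hc 1
      rw [one_smul, sub_add_cancel] at h5
      show d.a u ∈ Q
      rw [h5]
      refine Q.sum_mem fun i hi => ?_
      exact Q.smul_mem _ (h4 i (by have := Finset.mem_range.1 hi; omega))
    have : Module.Finite ℂ Q := Submodule.finiteDimensional_sup _ _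
    exact (Submodule.finrank_mono hEQ).trans hQ3
  · exfalso
    push Not at hA
    by_cases hB : ∃ v ∈ CC, Module.finrank ℂ ↥(FF d.V (v 0) ⊓ FF d.V (v 1)) ≤ 1
    · obtain ⟨v, hv, hv1⟩ := hB
      obtain ⟨c, hc, hc0⟩ := (Submodule.ne_bot_iff _).1 (hmeet v hv 0 1 (by decide))
      refine hno v hv 2 c hc0 fun u hu => ?_
      have e0 : Function.update v 2 u 0 = v 0 := Function.update_of_ne (by decide) _ _
      have e1 : Function.update v 2 u 1 = v 1 := Function.update_of_ne (by decide) _ _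
      have e2 : Function.update v 2 u 2 = u := Function.update_self _ _ _
      have h1 := hA _ hu
      rw [e0, e1, e2] at h1
      obtain ⟨x, hx, hx0⟩ := (Submodule.ne_bot_iff _).1 h1
      obtain ⟨hx1, hx2⟩ := Submodule.mem_inf.1 hx
      have f0 := hfin v hv 0
      have : Module.Finite ℂ ↥(FF d.V (v 0) ⊓ FF d.V (v 1)) :=
        Submodule.finiteDimensional_inf_left _ _
      have hli : ¬ LinearIndependent ℂ ![x, c] := by
        intro hli
        have h2 : Submodule.span ℂ (Set.range ![x, c]) ≤ FF d.V (v 0) ⊓ FF d.V (v 1) := by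
          rw [Submodule.span_le]
          rintro _ ⟨i, rfl⟩
          fin_cases i
          · exact hx1
          · exact hc
        have h3 := Submodule.finrank_mono h2
        rw [finrank_span_eq_card hli, Fintype.card_fin] at h3
        omega
      obtain ⟨a, ha⟩ := dep hc0 hli
      have ha0 : a ≠ 0 := by
        rintro rfl
        rw [zero_smul] at ha
        exact hx0 ha
      have : c = a⁻¹ • x := by rw [ha, smul_smul, inv_mul_cancel₀ ha0, one_smul]
      rw [this]
      exact (FF d.V u).smul_mem _ hx2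
    · push Not at hB
      obtain ⟨c, hc, hc0⟩ := (Submodule.ne_bot_iff _).1 (hmeet w hw 0 1 (by decide))
      refine hno w hw 1 c hc0 fun u hu => ?_
      have e0 : Function.update w 1 u 0 = w 0 := Function.update_of_ne (by decide) _ _
      have e1 : Function.update w 1 u 1 = u := Function.update_self _ _ _
      have h1 := hB _ hu
      have f0 := hfin _ hu 0
      have d0 := htwo _ hu 0
      rw [e0, e1] at h1
      rw [e0] at f0 d0
      have h2 : FF d.V (w 0) ⊓ FF d.V u = FF d.V (w 0) :=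
        Submodule.eq_of_le_of_finrank_le inf_le_left (by omega)
      have h3 : c ∈ FF d.V (w 0) ⊓ FF d.V u := by
        rw [h2]
        exact (Submodule.mem_inf.1 hc).1
      exact (Submodule.mem_inf.1 h3).2

/-- **(P20)** -/
theorem fw (h : LemX) : Fw :=
  fw_of h Pool.Agent.W2helper12.SOS.pB1 Pool.Agent.W2helper12.SOS.pB2 Pool.Agent.W2helper12.SOS.pB3

end Pool.Agent.W2helper95.SOS
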